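import Mathlib
import Pool.Agent.Y920.ETC.Small2
import Pool.Agent.Y43.ET.GL

set_option autoImplicit false

/-! Quaternionic structures whose value groups have at most four elements: birigid elements. -/

namespace Pool.Agent.R675.ETC4

open Pool.Agent.H315R3.ETC Pool.Agent.Y920.ETC Finset

variable {S : QData} (h : IsQuat S)

include h in
lemma mm (a : S.G) : a * a = 1 := h.exp2 a

include h in
lemma qc {a b : S.G} (e : S.q a b = S.zero) : S.q b a = S.zero := by rw [h.qs2]; exact e

include h in
/-- the product lemma -/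
lemma prod_hr {a e c f : S.G} (hae : S.q a e = S.zero) (hcf : S.q c f = S.zero)
    (hr : Hr S (e * c)) :
    S.q a (S.neg * c * f) = S.zero ∨ S.q f (S.neg * a * e) = S.zero := by
  have e1 : S.q (e * c) a = S.q c a := by
    rw [h.qs2, q_shift h _ hae, h.qs2]
  have e2 : S.q (a * f) c = S.q c a := by
    rw [h.qs2, mul_comm a f, q_shift h _ hcf]
  obtain ⟨z, h1, h2⟩ := h.qs4 (e * c) a (a * f) c (e1.trans e2.symm)
  have h3 : S.q (e * c) (a * z) = S.zero := (h.qs3 _ _ _).1 h1
  have h4 : S.q (a * f) (c * z) = S.zero := (h.qs3 _ _ _).1 h2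
  rcases hr _ h3 with h5 | h5
  · left
    have hz : a = z := eq_of_mul h _ _ h5
    rw [← hz] at h4
    have h6 : S.q (a * f) (c * a * (S.neg * (a * f))) = S.zero := p_mul h h4 (h.qs1 _)
    have h7 : c * a * (S.neg * (a * f)) = S.neg * c * f := by
      calc c * a * (S.neg * (a * f)) = S.neg * c * f * (a * a) := by ac_rfl
        _ = _ := by rw [h.exp2, mul_one]
    rw [h7] at h6
    have h8 : S.q (S.neg * c * f) f = S.zero := by
      apply qc h
      have h9 : S.q f (S.neg * f * c) = S.zero := p_mul h (h.qs1 f) (qc h hcf)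
      have h10 : S.neg * f * c = S.neg * c * f := by ac_rfl
      rwa [h10] at h9
    have h9 : S.q (S.neg * c * f) (a * f * f) = S.zero := p_mul h (qc h h6) h8
    rw [mul_cancel h] at h9
    exact qc h h9
  · right
    have hz : z = S.neg * a * e * c := by
      have h6 : a * (a * z) = a * (S.neg * (e * c)) := by rw [h5]
      rw [← mul_assoc, h.exp2, one_mul] at h6
      rw [h6]; ac_rfl
    have h7 : c * z = S.neg * a * e := by
      rw [hz]
      calc c * (S.neg * a * e * c) = S.neg * a * e * (c * c) := by ac_rfl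
        _ = _ := by rw [h.exp2, mul_one]
    rw [h7] at h4
    have h8 : S.q (S.neg * a * e) a = S.zero := by
      apply qc h
      exact p_mul h (h.qs1 a) hae
    have h9 : S.q (S.neg * a * e) (a * f * a) = S.zero := p_mul h (qc h h4) h8
    have h10 : a * f * a = f := by
      calc a * f * a = f * (a * a) := by ac_rfl
        _ = f := by rw [h.exp2, mul_one]
    rw [h10] at h9
    exact qc h h9

/-- triples -/
structure Tri (S : QData) (a e g : S.G) : Prop where
  prod : a * e * g = S.neg
  va : ∀ x, S.q a x = S.zero → x = 1 ∨ x = S.neg * a ∨ x = e ∨ x = g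
  ve : ∀ x, S.q e x = S.zero → x = 1 ∨ x = S.neg * e ∨ x = a ∨ x = g
  vg : ∀ x, S.q g x = S.zero → x = 1 ∨ x = S.neg * g ∨ x = a ∨ x = e
  ae : S.q a e = S.zero
  ag : S.q a g = S.zero
  eg : S.q e g = S.zero
  na : S.q a S.neg ≠ S.zero
  ne : S.q e S.neg ≠ S.zero
  ng : S.q g S.neg ≠ S.zero

include h in
lemma Tri.rot {a e g : S.G} (T : Tri S a e g) : Tri S e g a := by
  refine ⟨?_, ?_, ?_, ?_, T.eg, qc h T.ae, qc h T.ag, T.ne, T.ng, T.na⟩
  · rw [← T.prod]; ac_rfl
  · intro x hx
    rcases T.ve x hx with h1 | h1 | h1 | h1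
    · exact Or.inl h1
    · exact Or.inr (Or.inl h1)
    · exact Or.inr (Or.inr (Or.inr h1))
    · exact Or.inr (Or.inr (Or.inl h1))
  · intro x hx
    rcases T.vg x hx with h1 | h1 | h1 | h1
    · exact Or.inl h1
    · exact Or.inr (Or.inl h1)
    · exact Or.inr (Or.inr (Or.inr h1))
    · exact Or.inr (Or.inr (Or.inl h1))
  · intro x hx
    exact T.va x hx

include h in
lemma Tri.swap {a e g : S.G} (T : Tri S a e g) : Tri S a g e := by
  refine ⟨?_, ?_, ?_, ?_, T.ag, T.ae, qc h T.eg, T.na, T.ng, T.ne⟩
  · rw [← T.prod]; ac_rfl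
  · intro x hx
    rcases T.va x hx with h1 | h1 | h1 | h1
    · exact Or.inl h1
    · exact Or.inr (Or.inl h1)
    · exact Or.inr (Or.inr (Or.inr h1))
    · exact Or.inr (Or.inr (Or.inl h1))
  · intro x hx
    exact T.vg x hx
  · intro x hx
    exact T.ve x hx

/-- the group generated by the triple -/
def InH (S : QData) (a e g x : S.G) : Prop :=
  x = 1 ∨ x = S.neg ∨ x = a ∨ x = S.neg * a ∨ x = e ∨ x = S.neg * e ∨ x = g ∨ x = S.neg * g

lemma InH.rot {a e g x : S.G} (H : InH S a e g x) : InH S e g a x := by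
  unfold InH at *
  tauto

lemma InH.rot' {a e g x : S.G} (H : InH S e g a x) : InH S a e g x := by
  unfold InH at *
  tauto

include h in
lemma nn : S.neg * S.neg = 1 := h.exp2 _

include h in
lemma nnm (a : S.G) : S.neg * (S.neg * a) = a := by rw [← mul_assoc, h.exp2, one_mul]

include h in
lemma Tri.g_eq {a e g : S.G} (T : Tri S a e g) : S.neg * a * e = g := by
  rw [← T.prod]
  calc a * e * g * a * e = g * (a * a) * (e * e) := by ac_rfl
    _ = g := by rw [h.exp2, h.exp2, mul_one, mul_one]

include h in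
lemma InH.neg {a e g x : S.G} (H : InH S a e g x) : InH S a e g (S.neg * x) := by
  unfold InH at *
  rcases H with rfl | rfl | rfl | rfl | rfl | rfl | rfl | rfl
  · rw [mul_one]; tauto
  · rw [nn h]; tauto
  · tauto
  · rw [nnm h]; tauto
  · tauto
  · rw [nnm h]; tauto
  · tauto
  · rw [nnm h]; tauto

include h in
lemma InH.neg' {a e g x : S.G} (H : InH S a e g (S.neg * x)) : InH S a e g x := by
  have := InH.neg h H
  rwa [nnm h] at this

include h in
lemma InH.mul {a e g x : S.G} (T : Tri S a e g) (H : InH S a e g x) : InH S a e g (e * x) := by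
  have hg := T.g_eq h
  have hg' := (T.swap h).g_eq h
  -- `e = neg * a * g`
  have e1 : e * a = S.neg * g := by
    rw [← hg, ← mul_assoc, ← mul_assoc, nn h, one_mul, mul_comm]
  have e2 : e * g = S.neg * a := by
    rw [← (T.rot h).g_eq h]
    calc e * g = (S.neg * S.neg) * e * g := by rw [nn h, one_mul]
      _ = _ := by ac_rfl
  unfold InH at *
  rcases H with rfl | rfl | rfl | rfl | rfl | rfl | rfl | rfl
  · rw [mul_one]; tauto
  · rw [mul_comm]; tauto
  · rw [e1]; tauto
  · have : e * (S.neg * a) = g := by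
      calc e * (S.neg * a) = S.neg * (e * a) := by ac_rfl
        _ = g := by rw [e1, nnm h]
    rw [this]; tauto
  · rw [h.exp2]; tauto
  · have : e * (S.neg * e) = S.neg := by
      calc e * (S.neg * e) = S.neg * (e * e) := by ac_rfl
        _ = _ := by rw [h.exp2, mul_one]
    rw [this]; tauto
  · rw [e2]; tauto
  · have : e * (S.neg * g) = a := by
      calc e * (S.neg * g) = S.neg * (e * g) := by ac_rfl
        _ = a := by rw [e2, nnm h]
    rw [this]; tauto

include h in
/-- elements outside the group of a triple: translation by `e` preserves non half rigidity -/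
lemma Tri.move {a e g : S.G} (T : Tri S a e g) {x : S.G} (hx : ¬ Hr S x) (hH : ¬ InH S a e g x) :
    ¬ Hr S (e * x) := by
  intro hr
  unfold Hr at hx
  push Not at hx
  obtain ⟨f, hf, hf1, hfx⟩ := hx
  have hg := T.g_eq h
  -- the second element
  set f' := S.neg * x * f with hf'
  have hxf' : S.q x f' = S.zero := p_mul h (h.qs1 x) hf
  have hf'1 : f' ≠ 1 := by
    intro e1
    apply hfx
    have := eq_of_mul h _ _ e1
    exact this.symm
  have hff : S.neg * x * f' = f := by
    rw [hf']
    calc S.neg * x * (S.neg * x * f) = (S.neg * S.neg) * (x * x) * f := by ac_rfl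
      _ = f := by rw [h.exp2, h.exp2, one_mul, one_mul]
  have k1 := prod_hr h T.ae hf hr
  have k2 := prod_hr h T.ae hxf' hr
  rw [hff, hg] at k2
  rw [hg] at k1
  have hprod : f * f' = S.neg * x := by
    rw [hf']
    calc f * (S.neg * x * f) = S.neg * x * (f * f) := by ac_rfl
      _ = _ := by rw [h.exp2, mul_one]
  -- an element of `V(x)` different from `1` in both `V(a)` and `V(g)`
  have key : ∀ y, S.q x y = S.zero → y ≠ 1 → S.q a y = S.zero → S.q g y = S.zero → False := by
    intro y hxy hy1 hay hgy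
    rcases T.va y hay with h1 | h1 | h1 | h1
    · exact hy1 h1
    · apply T.ng
      have h2 : S.q g (a * (S.neg * a)) = S.zero := p_mul h (qc h T.ag) (h1 ▸ hgy)
      have h3 : a * (S.neg * a) = S.neg := by
        calc a * (S.neg * a) = S.neg * (a * a) := by ac_rfl
          _ = _ := by rw [h.exp2, mul_one]
      rwa [h3] at h2
    · rw [h1] at hxy
      apply hH
      have := T.ve x (qc h hxy)
      unfold InH
      tauto
    · apply T.ng
      have h2 : S.q g (g * (S.neg * g)) = S.zero := p_mul h (h1 ▸ hgy) (h.qs1 g)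
      have h3 : g * (S.neg * g) = S.neg := by
        calc g * (S.neg * g) = S.neg * (g * g) := by ac_rfl
          _ = _ := by rw [h.exp2, mul_one]
      rwa [h3] at h2
  have inH_of_a : S.q a (S.neg * x) = S.zero → False := by
    intro h1
    apply hH
    apply InH.neg' h
    have := T.va _ h1
    unfold InH
    tauto
  have inH_of_g : S.q g (S.neg * x) = S.zero → False := by
    intro h1
    apply hH
    apply InH.neg' h
    have := T.vg _ h1
    unfold InH
    tauto
  rcases k1 with k1 | k1 <;> rcases k2 with k2 | k2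
  · -- `f'` and `f` in `V(a)`
    apply inH_of_a
    rw [← hprod]
    exact p_mul h k2 k1
  · exact key f' hxf' hf'1 k1 (qc h k2)
  · exact key f hf hf1 k2 (qc h k1)
  · apply inH_of_g
    rw [← hprod]
    exact p_mul h (qc h k1) (qc h k2)

section four

variable [Finite S.G]

omit h in
/-- value groups with four known elements -/
lemma four {a x y z : S.G} (hs : vs S a ≤ 4) (h1 : S.q a 1 = S.zero) (hx : S.q a x = S.zero)
    (hy : S.q a y = S.zero) (hz : S.q a z = S.zero) (d1 : x ≠ 1) (d2 : y ≠ 1) (d3 : z ≠ 1)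
    (d4 : x ≠ y) (d5 : x ≠ z) (d6 : y ≠ z) :
    ∀ w, S.q a w = S.zero → w = 1 ∨ w = x ∨ w = y ∨ w = z := by
  classical
  intro w hw
  by_contra hc
  push Not at hc
  obtain ⟨c1, c2, c3, c4⟩ := hc
  have hsub : ((({w, 1, x, y, z} : Finset S.G)) : Set S.G) ⊆ {b : S.G | S.q a b = S.zero} := by
    intro b hb
    simp only [Finset.coe_insert, Finset.coe_singleton, Set.mem_insert_iff,
      Set.mem_singleton_iff] at hb
    rcases hb with rfl | rfl | rfl | rfl | rfl <;> assumption
  have h2 := Set.ncard_le_ncard hsub (Set.toFinite _)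
  rw [Set.ncard_coe_finset, Finset.card_insert_of_notMem, Finset.card_insert_of_notMem,
    Finset.card_insert_of_notMem, Finset.card_insert_of_notMem, Finset.card_singleton] at h2
  · have : {b : S.G | S.q a b = S.zero}.ncard = vs S a := rfl
    omega
  · simpa using d6
  · simp only [Finset.mem_insert, Finset.mem_singleton, not_or]; exact ⟨d4, d5⟩
  · simp only [Finset.mem_insert, Finset.mem_singleton, not_or]
    exact ⟨d1.symm, d2.symm, d3.symm⟩
  · simp only [Finset.mem_insert, Finset.mem_singleton, not_or]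
    exact ⟨c1, c2, c3, c4⟩

include h in
/-- existence of triples -/
lemma tri_of (hs : ∀ a : S.G, a ≠ 1 → vs S a ≤ 4) {c f : S.G} (hc1 : c ≠ 1) (hcn : c ≠ S.neg)
    (hq : S.q c S.neg ≠ S.zero) (hf : S.q c f = S.zero) (hf1 : f ≠ 1) (hfc : f ≠ S.neg * c) :
    Tri S c f (S.neg * c * f) := by
  have hn1 : S.neg ≠ 1 := by
    intro e
    apply hq
    rw [e]
    exact q_one h c
  have hcf : c ≠ f := by
    rintro rfl
    apply hq
    have h1 : S.q c (c * (S.neg * c)) = S.zero := p_mul h hf (h.qs1 c)
    have h3 : c * (S.neg * c) = S.neg := by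
      calc c * (S.neg * c) = S.neg * (c * c) := by ac_rfl
        _ = _ := by rw [h.exp2, mul_one]
    rwa [h3] at h1
  have hfn : f ≠ S.neg := by
    rintro rfl
    exact hq hf
  set g := S.neg * c * f with hgdef
  have hcg : S.q c g = S.zero := p_mul h (h.qs1 c) hf
  have hfg : S.q f g = S.zero := by
    have h9 : S.q f (S.neg * f * c) = S.zero := p_mul h (h.qs1 f) (qc h hf)
    have h10 : S.neg * f * c = g := by rw [hgdef]; ac_rfl
    rwa [h10] at h9
  have hg1 : g ≠ 1 := fun e => hfc (eq_of_mul h _ _ e).symm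
  have hgn : g ≠ S.neg := by
    intro e
    apply hcf
    have h1 : S.neg * g = 1 := by rw [e, h.exp2]
    have h2 : S.neg * g = c * f := by
      rw [hgdef]
      calc S.neg * (S.neg * c * f) = (S.neg * S.neg) * (c * f) := by ac_rfl
        _ = _ := by rw [h.exp2, one_mul]
    rw [h2] at h1
    exact eq_of_mul h _ _ h1
  have neg_ne : ∀ x : S.G, S.neg * x ≠ x := by
    intro x e
    exact hn1 (by rwa [mul_eq_right] at e)
  have neg_one : ∀ x : S.G, x ≠ S.neg → S.neg * x ≠ 1 := by
    intro x hx e
    exact hx (eq_of_mul h _ _ e).symm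
  have hgc : g ≠ S.neg * c := by
    intro e
    apply hf1
    rw [hgdef] at e
    rwa [mul_eq_left] at e
  have hgf : g ≠ S.neg * f := by
    intro e
    apply hc1
    have h1 : g = (S.neg * f) * c := by rw [hgdef]; ac_rfl
    rw [h1] at e
    rwa [mul_eq_left] at e
  have hgc' : g ≠ c := by
    intro e
    have h1 : g = c * (S.neg * f) := by rw [hgdef]; ac_rfl
    rw [h1] at e
    have h2 : S.neg * f = 1 := by rwa [mul_eq_left] at e
    exact neg_one f hfn h2
  have hgf' : g ≠ f := by
    intro e
    have h1 : g = f * (S.neg * c) := by rw [hgdef]; ac_rfl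
    rw [h1] at e
    have h2 : S.neg * c = 1 := by rwa [mul_eq_left] at e
    exact neg_one c hcn h2
  have va : ∀ x, S.q c x = S.zero → x = 1 ∨ x = S.neg * c ∨ x = f ∨ x = g :=
    four (hs c hc1) (q_one h c) (h.qs1 c) hf hcg (neg_one c hcn) hf1 hg1 hfc.symm hgc.symm
      hgf'.symm
  have hcf' : c ≠ S.neg * f := by
    intro e
    apply hfc
    rw [e, nnm h]
  have ve : ∀ x, S.q f x = S.zero → x = 1 ∨ x = S.neg * f ∨ x = c ∨ x = g :=
    four (hs f hf1) (q_one h f) (h.qs1 f) (qc h hf) hfg (neg_one f hfn) hc1 hg1 hcf'.symm hgf.symm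
      hgc'.symm
  have hcg' : c ≠ S.neg * g := by
    intro e
    apply hgc
    rw [e, nnm h]
  have hfg' : f ≠ S.neg * g := by
    intro e
    apply hgf
    rw [e, nnm h]
  have vg : ∀ x, S.q g x = S.zero → x = 1 ∨ x = S.neg * g ∨ x = c ∨ x = f :=
    four (hs g hg1) (q_one h g) (h.qs1 g) (qc h hcg) (qc h hfg) (neg_one g hgn) hc1 hf1 hcg'.symm
      hfg'.symm hcf
  refine ⟨?_, va, ve, vg, hf, hcg, hfg, hq, ?_, ?_⟩
  · rw [hgdef]
    calc c * f * (S.neg * c * f) = S.neg * (c * c) * (f * f) := by ac_rfl
      _ = _ := by rw [h.exp2, h.exp2, mul_one, mul_one]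
  · intro e
    rcases ve _ e with h1 | h1 | h1 | h1
    · exact hn1 h1
    · apply hf1
      have h2 := congrArg (S.neg * ·) h1
      simp only [nnm h, nn h] at h2
      exact h2.symm
    · exact hcn h1.symm
    · exact hgn h1.symm
  · intro e
    rcases vg _ e with h1 | h1 | h1 | h1
    · exact hn1 h1
    · apply hg1
      have h2 := congrArg (S.neg * ·) h1
      simp only [nnm h, nn h] at h2
      exact h2.symm
    · exact hcn h1.symm
    · exact hfn h1.symm

end four

end Pool.Agent.R675.ETC4
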