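import Mathlib
import Pool.Agent.R675.ETC4.Bi4

set_option autoImplicit false

/-! Quaternionic structures whose value groups have at most four elements: all elements are not
half rigid if there are no birigid elements. -/

namespace Pool.Agent.R675.ETC4

open Pool.Agent.H315R3.ETC Pool.Agent.Y920.ETC Finset

variable {S : QData} (h : IsQuat S)

include h in
/-- outside the group of a triple the set of the elements which are not half rigid is closed
under `x ↦ -x` -/
lemma Tri.neg_move {a e g : S.G} (T : Tri S a e g) {x : S.G} (hx : ¬ Hr S x)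
    (hH : ¬ InH S a e g x) : ¬ Hr S (S.neg * x) := by
  -- multiply by `e`, `g`, `a`
  have h1 : ¬ Hr S (e * x) := T.move h hx hH
  have H1 : ¬ InH S a e g (e * x) := by
    intro hc
    apply hH
    have := InH.mul h T hc
    rwa [← mul_assoc, h.exp2, one_mul] at this
  have T2 : Tri S e g a := T.rot h
  have h2 : ¬ Hr S (g * (e * x)) := T2.move h h1 (fun hc => H1 hc.rot')
  have H2 : ¬ InH S e g a (g * (e * x)) := by
    intro hc
    apply H1
    have := InH.mul h T2 hc
    rw [← mul_assoc, h.exp2, one_mul] at this
    exact this.rot'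
  have T3 : Tri S g a e := T2.rot h
  have h3 : ¬ Hr S (a * (g * (e * x))) := T3.move h h2 (fun hc => H2 hc.rot')
  have e3 : a * (g * (e * x)) = S.neg * x := by
    rw [← T.prod]; ac_rfl
  rwa [e3] at h3

section fin

variable [Fintype S.G] [DecidableEq S.G] [DecidableEq S.Q]

omit [DecidableEq S.G] in
lemma vs_eq_card (a : S.G) : vs S a = #(A S a) := by
  have : {b : S.G | S.q a b = S.zero} = ((A S a : Finset S.G) : Set S.G) := by
    ext b; simp [A]
  rw [vs, this, Set.ncard_coe_finset]

include h in
/-- if there are no birigid elements, then no element except `1` and `-1` is half rigid -/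
lemma all_nonrigid (hs : ∀ a : S.G, a ≠ 1 → vs S a ≤ 4) (hn : S.neg ≠ 1)
    (hc : 15 ≤ Fintype.card S.G) (hB : ∀ a : S.G, ¬ Bi S a) :
    ∀ k : S.G, k ≠ 1 → k ≠ S.neg → ¬ Hr S k := by
  intro k hk1 hkn hk
  have hak : ¬ Hr S (S.neg * k) := fun hc => hB k ⟨hk1, hkn, hk, hc⟩
  set a := S.neg * k with ha
  have hna : S.neg * a = k := nnm h k
  have ha1 : a ≠ 1 := fun e => hkn (eq_of_mul h _ _ e).symm
  have han : a ≠ S.neg := by
    intro e
    apply hk1
    rw [ha] at e
    rwa [mul_eq_left] at e
  have hak' := hak
  unfold Hr at hak
  push Not at hak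
  obtain ⟨e, hae, he1, hek⟩ := hak
  -- `V(a) = {1, -a, e, -ae}`
  have va : ∀ x, S.q a x = S.zero → x = 1 ∨ x = S.neg * a ∨ x = e ∨ x = S.neg * a * e := by
    refine four (hs a ha1) (q_one h a) (h.qs1 a) hae (p_mul h (h.qs1 a) hae) ?_ he1 ?_ hek.symm ?_ ?_
    · rw [hna]; exact hk1
    · intro e1
      exact hek (eq_of_mul h _ _ e1).symm
    · intro e1
      apply he1
      exact mul_eq_left.1 e1.symm
    · intro e1
      have h1 : S.neg * a = 1 := mul_eq_right.1 e1.symm
      rw [hna] at h1
      exact hk1 h1
  have vk : ∀ x, S.q k x = S.zero → x = 1 ∨ x = a := fun x hx => hk x hx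
  -- the bad set
  let bad : Finset S.G := (A S S.neg) ∪ ((A S S.neg).image (S.neg * ·)) ∪
    {a, S.neg * a, e, S.neg * e, S.neg * a * e, a * e}
  have hbad : bad.card < Fintype.card S.G := by
    have h1 : #(A S S.neg) ≤ 4 := by rw [← vs_eq_card]; exact hs _ hn
    have h2 : bad.card ≤ #(A S S.neg) + #(A S S.neg) + 6 := by
      refine (Finset.card_union_le _ _).trans (Nat.add_le_add ((Finset.card_union_le _ _).trans
        (Nat.add_le_add le_rfl Finset.card_image_le)) ?_)
      exact Finset.card_le_six
    omega
  obtain ⟨c0, -, hc0⟩ : ∃ c ∈ (univ : Finset S.G), c ∉ bad :=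
    Finset.exists_mem_notMem_of_card_lt_card (by rw [Finset.card_univ]; exact hbad)
  have hneg : ∀ x, S.neg * x ∈ bad → x ∈ bad := by
    intro x hx
    simp only [bad, Finset.mem_union, Finset.mem_image, Finset.mem_insert,
      Finset.mem_singleton] at hx ⊢
    rcases hx with (hx | ⟨y, hy, hx⟩) | (hx | hx | hx | hx | hx | hx)
    · left; right
      exact ⟨_, hx, nnm h x⟩
    · left; left
      have : x = y := by
        have := congrArg (S.neg * ·) hx
        simp only [nnm h] at this
        exact this.symm
      rw [this]; exact hy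
    all_goals
      right
      have h0 := congrArg (S.neg * ·) hx
      simp only [nnm h] at h0
      rw [h0]
    · right; left; rfl
    · rw [nnm h]; left; rfl
    · right; right; right; left; rfl
    · rw [nnm h]; right; right; left; rfl
    · have : S.neg * (S.neg * a * e) = a * e := by
        calc S.neg * (S.neg * a * e) = (S.neg * S.neg) * (a * e) := by ac_rfl
          _ = _ := by rw [h.exp2, one_mul]
      rw [this]; right; right; right; right; right; rfl
    · have : S.neg * (a * e) = S.neg * a * e := (mul_assoc S.neg a e).symm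
      rw [this]; right; right; right; right; left; rfl
  -- a bad element is excluded: choose `c` or `-c`
  obtain ⟨c, hcb, hcr⟩ : ∃ c, c ∉ bad ∧ ¬ Hr S c := by
    by_cases h1 : Hr S c0
    · refine ⟨S.neg * c0, fun hc => hc0 (hneg _ hc), fun h2 => ?_⟩
      refine hB c0 ⟨?_, ?_, h1, h2⟩
      · rintro rfl
        apply hc0
        simp only [bad, Finset.mem_union]
        left; left
        rw [mem_A]
        exact q_one h _
      · rintro rfl
        apply hc0
        simp only [bad, Finset.mem_union, Finset.mem_image]
        left; right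
        refine ⟨1, ?_, mul_one _⟩
        rw [mem_A]
        exact q_one h _
    · exact ⟨c0, hc0, h1⟩
  have hc1 : c ≠ 1 := by
    rintro rfl
    apply hcb
    simp only [bad, Finset.mem_union]
    left; left
    rw [mem_A]
    exact q_one h _
  have hcn : c ≠ S.neg := by
    rintro rfl
    apply hcb
    simp only [bad, Finset.mem_union, Finset.mem_image]
    left; right
    refine ⟨1, ?_, mul_one _⟩
    rw [mem_A]
    exact q_one h _
  have hcq : S.q c S.neg ≠ S.zero := by
    intro e1
    apply hcb
    simp only [bad, Finset.mem_union]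
    left; left
    rw [mem_A]
    exact qc h e1
  have hcr' := hcr
  unfold Hr at hcr
  push Not at hcr
  obtain ⟨f, hf, hf1, hfc⟩ := hcr
  have T := tri_of h hs hc1 hcn hcq hf hf1 hfc
  set g := S.neg * c * f with hg
  -- elements of the group of `V(a)` are bad
  have inbad : ∀ x, S.q a x = S.zero → x ≠ 1 → x ∈ bad := by
    intro x hx hx1
    rcases va x hx with h1 | h1 | h1 | h1
    · exact absurd h1 hx1
    · simp [bad, h1]
    · simp [bad, h1]
    · simp [bad, h1]
  have hca : S.q c a ≠ S.zero := fun e1 => hcb (inbad c (qc h e1) hc1)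
  have hcna : c ≠ a := by
    rintro rfl
    apply hcb
    simp [bad]
  have hck : S.q c k ≠ S.zero := by
    intro e1
    rcases vk c (qc h e1) with h1 | h1
    · exact hc1 h1
    · exact hcna h1
  have haH : ¬ InH S c f g a := by
    intro hH
    rcases hH with h1 | h1 | h1 | h1 | h1 | h1 | h1 | h1
    · exact ha1 h1
    · exact han h1
    · exact hcna h1.symm
    · -- `a = -c`
      apply hcb
      have h2 : c = S.neg * a := by rw [h1, nnm h]
      rw [h2]
      simp [bad]
    · rw [← h1] at hf
      exact hca hf
    · -- `a = -f`
      have h2 : f = k := by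
        have := congrArg (S.neg * ·) h1
        simp only [nnm h, hna] at this
        exact this.symm
      rw [h2] at hf
      exact hck hf
    · have := T.ag
      rw [← h1] at this
      exact hca this
    · have h2 : g = k := by
        have := congrArg (S.neg * ·) h1
        simp only [nnm h, hna] at this
        exact this.symm
      have := T.ag
      rw [h2] at this
      exact hck this
  have := T.neg_move h hak' haH
  rw [hna] at this
  exact this hk

end fin

end Pool.Agent.R675.ETC4
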