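import Mathlib
import Pool.Agent.R675.ETC4.Bi4
import Pool.Agent.TH673.VG.CritInd

set_option autoImplicit false

/-! Structures of elementary type with more than eight elements and value groups with at most four
elements have birigid elements. -/

namespace Pool.Agent.R675.ETC4

open Pool.Agent.H315R3.ETC Pool.Agent.Y920.ETC Pool.Agent.TH673.VG

/-- the value set, with `q(1,1)` instead of the zero quaternion -/
def VZ (S : QData) (a : S.G) : Set S.G := {b : S.G | S.q a b = S.q 1 1}

/-- birigid, with `q(1,1)` instead of the zero quaternion -/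
def BZ (S : QData) (a : S.G) : Prop := a ≠ 1 ∧ a ≠ S.neg ∧
  (∀ e : S.G, S.q a e = S.q 1 1 → e = 1 ∨ e = S.neg * a) ∧
  (∀ e : S.G, S.q (S.neg * a) e = S.q 1 1 → e = 1 ∨ e = S.neg * (S.neg * a))

lemma exists_two {G : Type} [CommGroup G] [Finite G] (x : G) (h : 3 ≤ Nat.card G) :
    ∃ a : G, a ≠ 1 ∧ a ≠ x := by
  classical
  by_contra hcon
  push Not at hcon
  have hsub : (Set.univ : Set G) ⊆ (({1, x} : Finset G) : Set G) := by
    intro a _
    by_cases ha : a = 1
    · simp [ha]
    · simp [hcon a ha]
  have h1 := Set.ncard_le_ncard hsub (Set.toFinite _)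
  rw [Set.ncard_univ, Set.ncard_coe_finset] at h1
  have h2 : Finset.card ({1, x} : Finset G) ≤ 2 := Finset.card_le_two
  omega

theorem bi_aux (S : QData) (hE : Elem S) : IsQuat (fz S) → Finite S.G → 9 ≤ Nat.card S.G →
    (∀ a : S.G, a ≠ 1 → (VZ S a).ncard ≤ 4) → ∃ a : S.G, BZ S a := by
  have cC2 : Nat.card C2 = 2 := card_C2
  induction hE with
  | l0 =>
    intro _ _ h9
    exfalso
    have : Nat.card L0.G = 1 := by
      show Nat.card Unit = 1
      simp
    omega
  | l10 =>
    intro _ _ h9
    exfalso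
    have : Nat.card L10.G = 2 := cC2
    omega
  | l11 =>
    intro _ _ h9
    exfalso
    have : Nat.card L11.G = 2 := cC2
    omega
  | l1 =>
    intro _ _ h9
    exfalso
    have : Nat.card L1.G = 2 := cC2
    omega
  | loc S hS =>
    intro _ _ h9 hs
    exfalso
    obtain ⟨h, hf, -, hnd, hc⟩ := hS
    have hz : S.q 1 1 = S.zero := q_one h 1
    obtain ⟨a, ha1, -⟩ := exists_two (1 : S.G) (by omega)
    obtain ⟨b, hb⟩ : ∃ b, S.q a b ≠ S.zero := by
      by_contra hcon
      push Not at hcon
      exact ha1 (hnd a hcon)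
    obtain ⟨x, y, hxy, hset⟩ := Set.ncard_eq_two.1 hc
    have hmem : ∀ a b : S.G, S.q a b = x ∨ S.q a b = y := by
      intro a b
      have : S.q a b ∈ {t : S.Q | ∃ a b : S.G, S.q a b = t} := ⟨a, b, rfl⟩
      rw [hset] at this
      simpa using this
    have heq : ∀ c : S.G, S.q a c ≠ S.zero → S.q a c = S.q a b := by
      intro c hc
      have h0 := hmem 1 1
      rw [hz] at h0
      rcases h0 with h0 | h0 <;> rcases hmem a b with h1 | h1 <;> rcases hmem a c with h2 | h2 <;>
        rw [h0] at hb hc <;> first | (exact absurd h1 hb) | (exact absurd h2 hc) |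
          (rw [h1, h2])
    have hcov : (Set.univ : Set S.G) ⊆ VZ S a ∪ (fun c => c * b) '' VZ S a := by
      intro c _
      by_cases h1 : S.q a c = S.zero
      · left
        show S.q a c = S.q 1 1
        rw [h1, hz]
      · right
        refine ⟨c * b, ?_, mul_cancel h c b⟩
        show S.q a (c * b) = S.q 1 1
        rw [hz, ← h.qs3]
        exact heq c h1
    have h1 := Set.ncard_le_ncard hcov (Set.toFinite _)
    rw [Set.ncard_univ] at h1
    have h2 := Set.ncard_union_le (VZ S a) ((fun c => c * b) '' VZ S a)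
    have h3 : ((fun c => c * b) '' VZ S a).ncard ≤ (VZ S a).ncard :=
      Set.ncard_image_le (Set.toFinite _)
    have h4 := hs a ha1
    omega
  | prod S T _ _ ih1 ih2 =>
    intro h hf h9 hs
    have h' : IsQuat (Pool.Agent.H315R3.ETC.prod (fz S) (fz T)) := h
    have hS : IsQuat (fz S) := isQuat_left h'
    have hT : IsQuat (fz T) := isQuat_right h'
    have hf' : Finite (S.G × T.G) := hf
    have hfS : Finite S.G := Finite.of_surjective (Prod.fst : S.G × T.G → S.G)
      Prod.fst_surjective
    have hfT : Finite T.G := Finite.of_surjective (Prod.snd : S.G × T.G → T.G)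
      Prod.snd_surjective
    have hc : Nat.card (S.G × T.G) = Nat.card S.G * Nat.card T.G := Nat.card_prod _ _
    have h9' : 9 ≤ Nat.card S.G * Nat.card T.G := by rw [← hc]; exact h9
    have q1S : ∀ x : S.G, S.q 1 x = S.q 1 1 := fun x => q_one' hS x
    have q1T : ∀ x : T.G, T.q 1 x = T.q 1 1 := fun x => q_one' hT x
    have hA : ∀ a : S.G, a ≠ 1 → (VZ S a).ncard * Nat.card T.G ≤ 4 := by
      intro a ha
      have h1 := hs ((a, 1) : S.G × T.G) (fun e => ha (congrArg Prod.fst e))
      have h2 : VZ (Pool.Agent.H315R3.ETC.prod S T) ((a, 1) : S.G × T.G) =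
          (VZ S a) ×ˢ (Set.univ : Set T.G) := by
        ext ⟨x, y⟩
        constructor
        · intro hx
          exact ⟨congrArg Prod.fst hx, trivial⟩
        · rintro ⟨hx, -⟩
          exact Prod.ext hx (q1T y)
      have h3 : ((VZ S a) ×ˢ (Set.univ : Set T.G) : Set (S.G × T.G)).ncard ≤ 4 := by
        rw [h2] at h1; exact h1
      rw [Set.ncard_prod, Set.ncard_univ] at h3
      exact h3
    have hB : ∀ b : T.G, b ≠ 1 → Nat.card S.G * (VZ T b).ncard ≤ 4 := by
      intro b hb
      have h1 := hs ((1, b) : S.G × T.G) (fun e => hb (congrArg Prod.snd e))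
      have h2 : VZ (Pool.Agent.H315R3.ETC.prod S T) ((1, b) : S.G × T.G) =
          (Set.univ : Set S.G) ×ˢ (VZ T b) := by
        ext ⟨x, y⟩
        constructor
        · intro hx
          exact ⟨trivial, congrArg Prod.snd hx⟩
        · rintro ⟨-, hx⟩
          exact Prod.ext (q1S x) hx
      have h3 : ((Set.univ : Set S.G) ×ˢ (VZ T b) : Set (S.G × T.G)).ncard ≤ 4 := by
        rw [h2] at h1; exact h1
      rw [Set.ncard_prod, Set.ncard_univ] at h3
      exact h3
    have two : ∀ (R : QData), IsQuat (fz R) → Finite R.G → ∀ a : R.G, a ≠ R.neg →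
        2 ≤ (VZ R a).ncard := by
      intro R hR hfR a ha
      have h1 : (1 : R.G) ≠ R.neg * a := fun e => ha (eq_of_mul hR _ _ e.symm).symm
      have hsub : (({1, R.neg * a} : Set R.G)) ⊆ VZ R a := by
        intro b hb
        rcases hb with rfl | rfl
        · exact q_one hR a
        · exact hR.qs1 a
      have h2 := Set.ncard_le_ncard hsub (Set.toFinite _)
      rw [Set.ncard_pair h1] at h2
      exact h2
    by_cases s1 : Nat.card S.G = 1
    · have hsub : Subsingleton S.G := (Nat.card_eq_one_iff_unique.1 s1).1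
      obtain ⟨b, hb1, hbn, hb2, hb3⟩ := ih2 hT hfT (by rw [s1, one_mul] at h9'; exact h9')
        (fun b hb => by
          have := hB b hb
          rwa [s1, one_mul] at this)
      refine ⟨((1, b) : S.G × T.G), fun e => hb1 (congrArg Prod.snd e),
        fun e => hbn (congrArg Prod.snd e), ?_, ?_⟩
      · rintro (⟨x, y⟩ : S.G × T.G) e
        rcases hb2 y (congrArg Prod.snd e) with h1 | h1
        · exact Or.inl (Prod.ext (Subsingleton.elim _ _) h1)
        · exact Or.inr (Prod.ext (Subsingleton.elim _ _) h1)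
      · rintro (⟨x, y⟩ : S.G × T.G) e
        rcases hb3 y (congrArg Prod.snd e) with h1 | h1
        · exact Or.inl (Prod.ext (Subsingleton.elim _ _) h1)
        · exact Or.inr (Prod.ext (Subsingleton.elim _ _) h1)
    by_cases t1 : Nat.card T.G = 1
    · have hsub : Subsingleton T.G := (Nat.card_eq_one_iff_unique.1 t1).1
      obtain ⟨b, hb1, hbn, hb2, hb3⟩ := ih1 hS hfS (by rw [t1, mul_one] at h9'; exact h9')
        (fun b hb => by
          have := hA b hb
          rwa [t1, mul_one] at this)
      refine ⟨((b, 1) : S.G × T.G), fun e => hb1 (congrArg Prod.fst e),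
        fun e => hbn (congrArg Prod.fst e), ?_, ?_⟩
      · rintro (⟨x, y⟩ : S.G × T.G) e
        rcases hb2 x (congrArg Prod.fst e) with h1 | h1
        · exact Or.inl (Prod.ext h1 (Subsingleton.elim _ _))
        · exact Or.inr (Prod.ext h1 (Subsingleton.elim _ _))
      · rintro (⟨x, y⟩ : S.G × T.G) e
        rcases hb3 x (congrArg Prod.fst e) with h1 | h1
        · exact Or.inl (Prod.ext h1 (Subsingleton.elim _ _))
        · exact Or.inr (Prod.ext h1 (Subsingleton.elim _ _))
    exfalso
    have hpS : 0 < Nat.card S.G := Nat.card_pos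
    have hpT : 0 < Nat.card T.G := Nat.card_pos
    by_cases s3 : 3 ≤ Nat.card S.G
    · obtain ⟨a, ha1, han⟩ := exists_two S.neg s3
      have h1 := two S hS hfS a han
      have h2 := hA a ha1
      have h3 : 2 * Nat.card T.G ≤ 4 := (Nat.mul_le_mul_right _ h1).trans h2
      have h4 : Nat.card T.G = 2 := by omega
      have h5 : 5 ≤ Nat.card S.G := by rw [h4] at h9'; omega
      have hnt : Nontrivial T.G := Finite.one_lt_card_iff_nontrivial.1 (by omega)
      obtain ⟨b, hb⟩ := _root_.exists_ne (1 : T.G)
      have h6 := hB b hb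
      have h7 : 1 ≤ (VZ T b).ncard := (Set.ncard_pos (Set.toFinite _)).2 ⟨1, q_one hT b⟩
      have h8 : Nat.card S.G * 1 ≤ Nat.card S.G * (VZ T b).ncard := Nat.mul_le_mul_left _ h7
      omega
    · have hs2 : Nat.card S.G = 2 := by omega
      have t5 : 5 ≤ Nat.card T.G := by rw [hs2] at h9'; omega
      have hnt : Nontrivial S.G := Finite.one_lt_card_iff_nontrivial.1 (by omega)
      obtain ⟨b, hb⟩ := _root_.exists_ne (1 : S.G)
      have h6 := hA b hb
      have h7 : 1 ≤ (VZ S b).ncard := (Set.ncard_pos (Set.toFinite _)).2 ⟨1, q_one hS b⟩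
      have h8 : 1 * Nat.card T.G ≤ (VZ S b).ncard * Nat.card T.G := Nat.mul_le_mul_right _ h7
      omega
  | ext S _ _ =>
    intro h _ _ _
    have hS : IsQuat (fz S) := isQuat_of_ext h
    have nnS : S.neg * S.neg = 1 := hS.exp2 _
    have gne : gen ≠ 1 := by
      intro e
      have : (1 : ZMod 2) = 0 := congrArg Multiplicative.toAdd e
      exact one_ne_zero this
    have q11 : (ext S).q (1 : S.G × C2) (1 : S.G × C2) = (S.q 1 1, 1) := by
      show (S.q 1 1, pw (pw S.neg 1) 1 * pw 1 1 * pw 1 1) = (S.q 1 1, 1)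
      simp [pw]
    refine ⟨((1, gen) : S.G × C2), fun e => gne (congrArg Prod.snd e),
      fun e => gne (congrArg Prod.snd e), ?_, ?_⟩
    · rintro (⟨b, β⟩ : S.G × C2) e
      have e1 : (ext S).q ((1, gen) : S.G × C2) ((b, β) : S.G × C2) = (S.q 1 1, 1) := e.trans q11
      rcases C2_cases β with rfl | rfl
      · have e2 : pw (pw S.neg gen) 1 * pw 1 1 * pw b gen = 1 := congrArg Prod.snd e1
        simp [pw, gne] at e2
        left
        rw [e2]; rfl
      · have e2 : pw (pw S.neg gen) gen * pw 1 gen * pw b gen = 1 := congrArg Prod.snd e1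
        simp [pw, gne] at e2
        right
        have e3 : S.neg = b := eq_of_mul hS _ _ e2
        show ((b, gen) : S.G × C2) = (S.neg * 1, 1 * gen)
        rw [mul_one, one_mul, e3]
    · rintro (⟨b, β⟩ : S.G × C2) e
      have e0 : ((S.neg, 1) : S.G × C2) * ((1, gen) : S.G × C2) = ((S.neg, gen) : S.G × C2) := by
        show ((S.neg * 1, 1 * gen) : S.G × C2) = _
        rw [mul_one, one_mul]
      have e1' : (ext S).q (((S.neg, 1) : S.G × C2) * ((1, gen) : S.G × C2))
          ((b, β) : S.G × C2) = (S.q 1 1, 1) := e.trans q11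
      have e1 : (ext S).q ((S.neg, gen) : S.G × C2) ((b, β) : S.G × C2) = (S.q 1 1, 1) := by
        rw [← e0]; exact e1'
      rcases C2_cases β with rfl | rfl
      · have e2 : pw (pw S.neg gen) 1 * pw S.neg 1 * pw b gen = 1 := congrArg Prod.snd e1
        simp [pw, gne] at e2
        left
        rw [e2]; rfl
      · have e2 : pw (pw S.neg gen) gen * pw S.neg gen * pw b gen = 1 := congrArg Prod.snd e1
        simp [pw, gne] at e2
        right
        rw [nnS, one_mul] at e2
        show ((b, gen) : S.G × C2) = ((S.neg, 1) : S.G × C2) * (((S.neg, 1) : S.G × C2) * ((1, gen) : S.G × C2))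
        rw [e0]
        show ((b, gen) : S.G × C2) = (S.neg * S.neg, 1 * gen)
        rw [nnS, one_mul, e2]
  | iso S T _ hST ih =>
    intro h hf h9 hs
    obtain ⟨φ, hn, hq⟩ := id hST
    have z : ∀ a b : S.G, S.q a b = S.q 1 1 ↔ T.q (φ a) (φ b) = T.q 1 1 := by
      intro a b
      rw [hq, map_one]
    have hfS : Finite S.G := Finite.of_equiv _ φ.symm.toEquiv
    have hV : ∀ a : S.G, VZ T (φ a) = φ '' VZ S a := by
      intro a
      ext b
      constructor
      · intro hb
        refine ⟨φ.symm b, ?_, φ.apply_symm_apply b⟩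
        show S.q a (φ.symm b) = S.q 1 1
        rw [z, φ.apply_symm_apply]
        exact hb
      · rintro ⟨c, hc, rfl⟩
        exact (z a c).1 hc
    obtain ⟨a, ha1, han, h1, h2⟩ := ih (isQuat_of_iso hST h) hfS
      (by rw [Nat.card_congr φ.toEquiv]; exact h9) (fun a ha => by
        have h3 := hs (φ a) (fun e => ha (by rwa [← map_one φ, φ.injective.eq_iff] at e))
        rw [hV, Set.ncard_image_of_injective _ φ.injective] at h3
        exact h3)
    refine ⟨φ a, fun e => ha1 (by rwa [← map_one φ, φ.injective.eq_iff] at e),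
      fun e => han (by rwa [← hn, φ.injective.eq_iff] at e), ?_, ?_⟩
    · intro e he
      have h3 : S.q a (φ.symm e) = S.q 1 1 := by
        rw [z, φ.apply_symm_apply]; exact he
      rcases h1 _ h3 with h4 | h4
      · left
        rw [← φ.apply_symm_apply e, h4, map_one]
      · right
        rw [← φ.apply_symm_apply e, h4, map_mul, hn]
    · intro e he
      have h3 : S.q (S.neg * a) (φ.symm e) = S.q 1 1 := by
        rw [z, φ.apply_symm_apply, map_mul, hn]; exact he
      rcases h2 _ h3 with h4 | h4
      · left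
        rw [← φ.apply_symm_apply e, h4, map_one]
      · right
        rw [← φ.apply_symm_apply e, h4, map_mul, map_mul, hn]

/-- birigid elements in structures of elementary type -/
theorem bi_of_elem {S : QData} (h : IsQuat S) [Finite S.G] (hE : Elem S)
    (h9 : 9 ≤ Nat.card S.G) (hs : ∀ a : S.G, a ≠ 1 → vs S a ≤ 4) : ∃ a : S.G, Bi S a := by
  have hz : S.q 1 1 = S.zero := q_one h 1
  have hV : ∀ a : S.G, VZ S a = {b : S.G | S.q a b = S.zero} := by
    intro a
    unfold VZ
    rw [hz]
  obtain ⟨a, h1, h2, h3, h4⟩ := bi_aux S hE (by rw [fz_eq h]; exact h) inferInstance h9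
    (fun a ha => by rw [hV]; exact hs a ha)
  rw [hz] at h3 h4
  exact ⟨a, h1, h2, h3, h4⟩

end Pool.Agent.R675.ETC4
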