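import Mathlib
import Pool.Agent.R675.ETC4.All4

set_option autoImplicit false

/-! Quaternionic structures whose value groups have at most four elements: existence of birigid
elements. -/

namespace Pool.Agent.R675.ETC4

open Pool.Agent.H315R3.ETC Pool.Agent.Y920.ETC Finset

variable {S : QData} (h : IsQuat S)

section graph

variable {t : S.Q}

include h in
open scoped Classical in
/-- independent slots have at most one common neighbour -/
lemma cn_le_one [DecidableEq S.G] [Fintype (Vt S t)] (hl : ∀ a : S.G, S.q a a ≠ t) (u v : Vt S t)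
    (hd : ∀ d, S.q u.1 d = S.zero → S.q v.1 d = S.zero → d = 1) : cn (Gr' h hl) u v ≤ 1 := by
  unfold cn
  rw [Finset.card_le_one]
  intro z hz z' hz'
  rw [Finset.mem_inter, SimpleGraph.mem_neighborFinset, SimpleGraph.mem_neighborFinset] at hz hz'
  have h1 : S.q u.1 z.1 = t := hz.1
  have h2 : S.q v.1 z.1 = t := hz.2
  have h3 : S.q u.1 z'.1 = t := hz'.1
  have h4 : S.q v.1 z'.1 = t := hz'.2
  apply Subtype.ext
  apply eq_of_mul h
  apply hd
  · rw [← h.qs3, h1, h3]
  · rw [← h.qs3, h2, h4]

include h in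
open scoped Classical in
/-- no excess at `u` -/
lemma bu_zero [DecidableEq S.G] [Fintype (Vt S t)] (hl : ∀ a : S.G, S.q a a ≠ t) (u : Vt S t)
    (hd : ∀ v : Vt S t, v ≠ u → ∀ d, S.q u.1 d = S.zero → S.q v.1 d = S.zero → d = 1) :
    bu (Gr' h hl) u = 0 := by
  unfold bu
  apply Finset.sum_eq_zero
  intro v hv
  have := cn_le_one h hl u v (hd v (Finset.mem_filter.1 hv).2)
  omega

include h in
/-- if all slots have value groups with four elements and there is no excess at one slot, then the
slots are independent -/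
lemma indep_of_regular [Fintype S.G] [DecidableEq S.G] [DecidableEq S.Q] (ht : t ≠ S.zero)
    (hl : ∀ a : S.G, S.q a a ≠ t)
    (h4 : ∀ a : S.G, (∃ x, S.q a x = t) → #(A S a) = 4) (u : S.G) (hu : ∃ x, S.q u x = t)
    (hd : ∀ v : S.G, v ≠ u → (∃ x, S.q v x = t) → ∀ d, S.q u d = S.zero → S.q v d = S.zero →
      d = 1) : Indep S t := by
  classical
  have hf : Fintype (Vt S t) := Fintype.ofFinite _
  have hcn : ∀ a b : Vt S t, a ≠ b → ∃ w, (Gr' h hl).Adj a w ∧ (Gr' h hl).Adj b w := by
    intro u v _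
    obtain ⟨a, ha⟩ := u.2
    obtain ⟨b, hb'⟩ := v.2
    obtain ⟨y, e1, e2⟩ := h.qs4 u.1 a v.1 b (ha.trans hb'.symm)
    refine ⟨⟨y, u.1, ?_⟩, ?_, ?_⟩
    · rw [h.qs2]; exact e1.symm.trans ha
    · exact e1.symm.trans ha
    · exact e2.symm.trans hb'
  have hdeg : ∀ v : Vt S t, (Gr' h hl).degree v = 4 := by
    intro v
    rw [deg_eq h hl]
    exact h4 v.1 v.2
  have hsum : ∀ v : Vt S t, 16 = 4 + (Fintype.card (Vt S t) - 1) + bu (Gr' h hl) v := by
    intro v
    have h1 := Pool.Agent.Y43.ET.deg_sum (Gr' h hl) hcn v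
    rw [Finset.sum_congr rfl fun w _ => hdeg w, Finset.sum_const, smul_eq_mul,
      SimpleGraph.card_neighborFinset_eq_degree, hdeg] at h1
    exact h1
  have hU : bu (Gr' h hl) ⟨u, hu⟩ = 0 := by
    apply bu_zero h hl
    intro v hv d h1 h2
    exact hd v.1 (fun e => hv (Subtype.ext e)) v.2 d h1 h2
  have h0 : ∀ v : Vt S t, bu (Gr' h hl) v = 0 := by
    intro v
    have h1 := hsum v
    have h2 := hsum ⟨u, hu⟩
    omega
  apply indep_of_bt h hl
  unfold bt
  exact Finset.sum_eq_zero fun v _ => h0 v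

end graph

section fin

variable [Fintype S.G] [DecidableEq S.G] [DecidableEq S.Q]

include h in
lemma card_A_four (hs : ∀ a : S.G, a ≠ 1 → vs S a ≤ 4) {a : S.G} (ha1 : a ≠ 1) (han : a ≠ S.neg)
    (hr : ¬ Hr S a) : #(A S a) = 4 := by
  apply le_antisymm
  · rw [← vs_eq_card]; exact hs a ha1
  · unfold Hr at hr
    push Not at hr
    obtain ⟨e, he, he1, hea⟩ := hr
    have h1 : S.neg * a ≠ 1 := fun e' => han (eq_of_mul h _ _ e').symm
    have h4 : e * (S.neg * a) ≠ 1 := fun e' => hea (eq_of_mul h _ _ e')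
    have h5 : e * (S.neg * a) ≠ e := fun e' => h1 (by rwa [mul_eq_left] at e')
    have h6 : e * (S.neg * a) ≠ S.neg * a := fun e' => he1 (by rwa [mul_eq_right] at e')
    have hsub : ({1, S.neg * a, e, e * (S.neg * a)} : Finset S.G) ⊆ A S a := by
      intro b hb
      simp only [Finset.mem_insert, Finset.mem_singleton] at hb
      rw [mem_A]
      rcases hb with rfl | rfl | rfl | rfl
      · exact q_one h a
      · exact h.qs1 a
      · exact he
      · exact p_mul h he (h.qs1 a)
    have h7 : #({1, S.neg * a, e, e * (S.neg * a)} : Finset S.G) = 4 := by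
      rw [Finset.card_insert_of_notMem, Finset.card_insert_of_notMem,
        Finset.card_insert_of_notMem, Finset.card_singleton]
      · simpa using h5.symm
      · simp only [Finset.mem_insert, Finset.mem_singleton, not_or]
        exact ⟨hea.symm, h6.symm⟩
      · simp only [Finset.mem_insert, Finset.mem_singleton, not_or]
        exact ⟨h1.symm, he1.symm, h4.symm⟩
    rw [← h7]
    exact Finset.card_le_card hsub

include h in
/-- if a quaternion has independent slots and is not a loop, then it has a half rigid slot -/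
lemma hr_of_indep {u y : S.G} (hl : ∀ a : S.G, S.q a a ≠ S.q u y) (hI : Indep S (S.q u y))
    (hr : ∀ a : S.G, (∃ x, S.q a x = S.q u y) → ¬ Hr S a) : False := by
  obtain ⟨w, hw⟩ := rigid_slots h hl hI
  have h1 : u = w := by
    by_contra hc
    exact hr u ⟨y, rfl⟩ (hw u hc ⟨y, rfl⟩)
  have h2 : y = w := by
    by_contra hc
    exact hr y ⟨u, h.qs2 _ _⟩ (hw y hc ⟨u, h.qs2 _ _⟩)
  rw [← h1] at h2
  rw [h2] at hl
  exact hl u rfl

include h in
/-- the case `-1 = 1` -/
lemma exists_bi_one (hs : ∀ a : S.G, a ≠ 1 → vs S a ≤ 4) (hn : S.neg = 1)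
    (hc : 5 ≤ Fintype.card S.G) : ∃ a : S.G, Bi S a := by
  by_contra hB
  push Not at hB
  have hnr : ∀ a : S.G, a ≠ 1 → ¬ Hr S a := by
    intro a ha hr
    refine hB a ⟨ha, by rw [hn]; exact ha, hr, ?_⟩
    rw [hn, one_mul]; exact hr
  -- value groups are blocks
  have blk : ∀ a d : S.G, a ≠ 1 → d ≠ 1 → S.q a d = S.zero → ∀ x, S.q d x = S.zero →
      S.q a x = S.zero := by
    intro a d ha hd had x hx
    by_cases e0 : a = d
    · rw [e0]; exact hx
    have haa := q_self h hn a
    have hdd := q_self h hn d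
    have hda := qc h had
    have hda' : a * d ≠ 1 := fun e => e0 (eq_of_mul h _ _ e)
    have key := four (S := S) (hs d hd) (q_one h d) hda hdd (p_mul h hda hdd) ha hd hda' e0
      (fun e => hd (mul_eq_left.1 e.symm)) (fun e => ha (mul_eq_right.1 e.symm)) x hx
    rcases key with rfl | rfl | rfl | rfl
    · exact q_one h a
    · exact haa
    · exact had
    · exact p_mul h haa had
  obtain ⟨a, ha⟩ : ∃ a : S.G, a ≠ 1 := by
    by_contra hcon
    push Not at hcon
    have : (univ : Finset S.G) ⊆ {1} := fun a _ => by simp [hcon a]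
    have := Finset.card_le_card this
    rw [Finset.card_univ, Finset.card_singleton] at this
    omega
  obtain ⟨b, -, hb⟩ : ∃ b ∈ (univ : Finset S.G), b ∉ A S a := by
    apply Finset.exists_mem_notMem_of_card_lt_card
    rw [Finset.card_univ]
    have : #(A S a) ≤ 4 := by rw [← vs_eq_card]; exact hs a ha
    omega
  rw [mem_A] at hb
  have hl : ∀ c : S.G, S.q c c ≠ S.q a b := by
    intro c e
    apply hb
    rw [← e]
    exact q_self h hn c
  have hslot : ∀ u : S.G, (∃ x, S.q u x = S.q a b) → u ≠ 1 := by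
    rintro u ⟨x, hx⟩ rfl
    apply hb
    rw [← hx]
    exact q_one' h x
  refine hr_of_indep h hl ?_ (fun u hu => hnr u (hslot u hu))
  intro u v huv hu hv d hud hvd
  by_contra hd
  have hu1 := hslot u hu
  have hv1 := hslot v hv
  have huv0 : S.q u v = S.zero := blk u d hu1 hd hud v (qc h hvd)
  obtain ⟨x, hx⟩ := hu
  obtain ⟨y, hy⟩ := hv
  obtain ⟨z, h1, h2⟩ := h.qs4 u x v y (hx.trans hy.symm)
  have huz : S.q u z = S.q a b := h1.symm.trans hx
  have hvz : S.q v z = S.q a b := h2.symm.trans hy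
  have h3 : S.q z (u * v) = S.zero := by
    rw [← h.qs3, h.qs2 z u, h.qs2 z v, huz, hvz]
  have h4 : u * v ≠ 1 := fun e => huv (eq_of_mul h _ _ e)
  have h5 : S.q u (u * v) = S.zero := p_mul h (q_self h hn u) huv0
  have h6 : S.q u z = S.zero := blk u (u * v) hu1 h4 h5 z (qc h h3)
  apply hb
  rw [← huz, h6]

end fin

end Pool.Agent.R675.ETC4
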