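import Mathlib
import Pool.Agent.R675.ETC4.Ex4

set_option autoImplicit false

/-! Quaternionic structures whose value groups have at most four elements: existence of birigid
elements, the case `-1 ≠ 1`. -/

namespace Pool.Agent.R675.ETC4

open Pool.Agent.H315R3.ETC Pool.Agent.Y920.ETC Finset

variable {S : QData} (h : IsQuat S)

section fin

variable [Fintype S.G] [DecidableEq S.G] [DecidableEq S.Q]

include h in
/-- the value group of `-e` for a member `e` of a triple -/
lemma neg_mem (hs : ∀ a : S.G, a ≠ 1 → vs S a ≤ 4) {e : S.G} (he1 : e ≠ 1) (hen : e ≠ S.neg)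
    (hr : ¬ Hr S (S.neg * e)) :
    ∃ w : S.G, ∀ z, S.q (S.neg * e) z = S.zero → z = 1 ∨ z = e ∨ z = w ∨ z = e * w := by
  unfold Hr at hr
  push Not at hr
  obtain ⟨w, hw, hw1, hwe⟩ := hr
  rw [nnm h] at hwe
  have h1 : S.q (S.neg * e) e = S.zero := by
    have := h.qs1 (S.neg * e)
    rwa [nnm h] at this
  refine ⟨w, four (hs _ ?_) (q_one h _) h1 hw (p_mul h h1 hw) he1 hw1 ?_ hwe.symm ?_ ?_⟩
  · intro e1
    exact hen (eq_of_mul h _ _ e1).symm
  · intro e1
    exact hwe (eq_of_mul h _ _ e1).symm
  · intro e1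
    exact hw1 (mul_eq_left.1 e1.symm)
  · intro e1
    exact he1 (mul_eq_right.1 e1.symm)

include h in
/-- the case `-1 ≠ 1` -/
lemma exists_bi_ne (hs : ∀ a : S.G, a ≠ 1 → vs S a ≤ 4) (hn : S.neg ≠ 1)
    (hc : 25 ≤ Fintype.card S.G) : ∃ a : S.G, Bi S a := by
  by_contra hB
  push Not at hB
  have hall := all_nonrigid h hs hn (by omega) hB
  have hA : ∀ a : S.G, a ≠ 1 → #(A S a) ≤ 4 := fun a ha => by
    rw [← vs_eq_card]; exact hs a ha
  -- the choice of `u`
  obtain ⟨u, -, hub⟩ : ∃ u ∈ (univ : Finset S.G), u ∉ (A S S.neg) ∪ (A S S.neg).image (S.neg * ·) := by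
    apply Finset.exists_mem_notMem_of_card_lt_card
    rw [Finset.card_univ]
    have h1 := hA _ hn
    have h2 : #((A S S.neg).image (S.neg * ·)) ≤ #(A S S.neg) := Finset.card_image_le
    have h3 := Finset.card_union_le (A S S.neg) ((A S S.neg).image (S.neg * ·))
    omega
  rw [Finset.mem_union, not_or] at hub
  obtain ⟨hub1, hub2⟩ := hub
  have huq : S.q u S.neg ≠ S.zero := by
    intro e
    apply hub1
    rw [mem_A]
    exact qc h e
  have huq' : S.q (S.neg * u) S.neg ≠ S.zero := by
    intro e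
    apply hub2
    rw [Finset.mem_image]
    exact ⟨S.neg * u, by rw [mem_A]; exact qc h e, nnm h u⟩
  have hu1 : u ≠ 1 := by
    rintro rfl
    exact huq (q_one' h _)
  have hun : u ≠ S.neg := by
    rintro rfl
    apply huq'
    rw [nn h]
    exact q_one' h _
  have hur := hall u hu1 hun
  unfold Hr at hur
  push Not at hur
  obtain ⟨u2, huu2, hu21, hu2u⟩ := hur
  have T := tri_of h hs hu1 hun huq huu2 hu21 hu2u
  set u3 := S.neg * u * u2 with hu3
  have hu2n : u2 ≠ S.neg := by
    rintro rfl
    exact huq huu2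
  have hu31 : u3 ≠ 1 := fun e => hu2u (eq_of_mul h _ _ e).symm
  have hu3n : u3 ≠ S.neg := by
    intro e
    have := T.ag
    rw [e] at this
    exact huq this
  obtain ⟨w2, hw2⟩ := neg_mem h hs hu21 hu2n (hall _ (fun e => hu2n (eq_of_mul h _ _ e).symm)
    (fun e => hu21 (mul_eq_left.1 e)))
  obtain ⟨w3, hw3⟩ := neg_mem h hs hu31 hu3n (hall _ (fun e => hu3n (eq_of_mul h _ _ e).symm)
    (fun e => hu31 (mul_eq_left.1 e)))
  -- the choice of `y`
  obtain ⟨y, -, hyb⟩ : ∃ y ∈ (univ : Finset S.G), y ∉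
      (((A S u) ×ˢ (A S (S.neg * u))).image fun p => p.1 * p.2) ∪ (A S u).image (w2 * ·) ∪
        (A S u).image (w3 * ·) := by
    apply Finset.exists_mem_notMem_of_card_lt_card
    rw [Finset.card_univ]
    have h1 := hA _ hu1
    have h1' := hA (S.neg * u) (fun e => hun (eq_of_mul h _ _ e).symm)
    have h2 : #((A S u).image (w2 * ·)) ≤ #(A S u) := Finset.card_image_le
    have h3 : #((A S u).image (w3 * ·)) ≤ #(A S u) := Finset.card_image_le
    have h4 : #(((A S u) ×ˢ (A S (S.neg * u))).image fun p => p.1 * p.2) ≤ 16 := by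
      refine Finset.card_image_le.trans ?_
      rw [Finset.card_product]
      exact Nat.mul_le_mul h1 h1'
    have h5 := Finset.card_union_le ((((A S u) ×ˢ (A S (S.neg * u))).image fun p => p.1 * p.2) ∪
      (A S u).image (w2 * ·)) ((A S u).image (w3 * ·))
    have h6 := Finset.card_union_le (((A S u) ×ˢ (A S (S.neg * u))).image fun p => p.1 * p.2)
      ((A S u).image (w2 * ·))
    omega
  have mb : ∀ p r : S.G, S.q u p = S.zero → S.q (S.neg * u) r = S.zero → y = p * r → False := by
    intro p r hp hr e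
    apply hyb
    rw [Finset.mem_union, Finset.mem_union]
    left; left
    rw [Finset.mem_image]
    exact ⟨(p, r), by rw [Finset.mem_product]; exact ⟨by rw [mem_A]; exact hp,
      by rw [mem_A]; exact hr⟩, e.symm⟩
  have mb2 : ∀ p : S.G, S.q u p = S.zero → y = w2 * p → False := by
    intro p hp e
    apply hyb
    rw [Finset.mem_union, Finset.mem_union]
    left; right
    rw [Finset.mem_image]
    exact ⟨p, by rw [mem_A]; exact hp, e.symm⟩
  have mb3 : ∀ p : S.G, S.q u p = S.zero → y = w3 * p → False := by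
    intro p hp e
    apply hyb
    rw [Finset.mem_union]
    right
    rw [Finset.mem_image]
    exact ⟨p, by rw [mem_A]; exact hp, e.symm⟩
  have q1 : S.q (S.neg * u) 1 = S.zero := q_one h _
  have qu : S.q (S.neg * u) u = S.zero := by
    have := h.qs1 (S.neg * u)
    rwa [nnm h] at this
  have qnu : S.q u (S.neg * u) = S.zero := h.qs1 u
  have ht : S.q u y ≠ S.zero := fun e => mb y 1 e q1 (mul_one y).symm
  have hl : ∀ b : S.G, S.q b b ≠ S.q u y := by
    intro b e
    have e1 : S.q S.neg b = S.q u y := by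
      rw [← e, h.qs2 S.neg b, h.qs3]
      exact h.qs1 b
    obtain ⟨z, h1, h2⟩ := h.qs4 _ _ _ _ e1
    have h3 : S.q z (S.neg * u) = S.zero := by
      rw [← h.qs3, h.qs2 z S.neg, h.qs2 z u, ← h1, ← h2, e1]
    have h4 : S.q u (y * z) = S.zero := (h.qs3 _ _ _).1 h2
    exact mb (y * z) z h4 (qc h h3) (mul_cancel h y z).symm
  have hslot : ∀ a : S.G, (∃ x, S.q a x = S.q u y) → a ≠ 1 ∧ a ≠ S.neg := by
    rintro a ⟨x, hx⟩
    exact slot_ne h ht hl hx
  have hslotr : ∀ a : S.G, (∃ x, S.q a x = S.q u y) → ¬ Hr S a := fun a ha =>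
    hall a (hslot a ha).1 (hslot a ha).2
  refine hr_of_indep h hl ?_ hslotr
  refine indep_of_regular h ht hl (fun a ha => card_A_four h hs (hslot a ha).1 (hslot a ha).2
    (hslotr a ha)) u ⟨y, rfl⟩ ?_
  intro v hvu hv d hud hvd
  by_contra hd
  have hv1 := (hslot v hv).1
  obtain ⟨b, hb⟩ := hv
  obtain ⟨z, h1, h2⟩ := h.qs4 u y v b hb.symm
  have h3 : S.q z (u * v) = S.zero := by
    rw [← h.qs3, h.qs2 z u, h.qs2 z v, ← h1, ← h2, hb]
  have h4 : S.q u (y * z) = S.zero := (h.qs3 _ _ _).1 h1
  have hyz : y = y * z * z := (mul_cancel h y z).symm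
  -- `z = 1`, `z` in `V(u)` and `z` in `V(-u)`
  have z0 : ∀ r s : S.G, S.q u r = S.zero → S.q (S.neg * u) s = S.zero → z = r * s → False := by
    intro r s hr hs' e
    refine mb (y * z * r) s (p_mul h h4 hr) hs' ?_
    calc y = y * z * z := hyz
      _ = y * z * (r * s) := by rw [← e]
      _ = _ := by ac_rfl
  have z1 : z = 1 → False := fun e => z0 1 1 (q_one h _) q1 (by rw [e, one_mul])
  have zu : S.q u z = S.zero → False := fun e => z0 z 1 e q1 (mul_one z).symm
  have zn : S.q (S.neg * u) z = S.zero → False := fun e => z0 1 z (q_one h _) e (one_mul z).symm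
  have zneg : ∀ r : S.G, S.q u r = S.zero → z = S.neg * r → False := by
    intro r hr e
    refine z0 (S.neg * u * r) u (p_mul h qnu hr) qu ?_
    rw [e]
    calc S.neg * r = S.neg * r * (u * u) := by rw [h.exp2, mul_one]
      _ = _ := by ac_rfl
  rcases T.va d hud with e | e | e | e
  · exact hd e
  · -- `d = -u`
    rw [e] at hvd
    have hnv : S.q (S.neg * u) v = S.zero := qc h hvd
    have hv' : S.q (S.neg * u) (u * v) = S.zero := p_mul h qu hnv
    have hv'1 : u * v ≠ 1 := fun e => hvu (eq_of_mul h _ _ e).symm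
    have hv'u : u * v ≠ S.neg * (S.neg * u) := by
      rw [nnm h]
      intro e1
      exact hv1 (mul_eq_left.1 e1)
    have T' := tri_of h hs (c := S.neg * u) (fun e => hun (eq_of_mul h _ _ e).symm)
      (fun e => hu1 (mul_eq_left.1 e)) huq' hv' hv'1 hv'u
    rcases T'.ve z (qc h h3) with e1 | e1 | e1 | e1
    · exact z1 e1
    · refine z0 (S.neg * u) v qnu hnv ?_
      rw [e1]; ac_rfl
    · exact zu (by rw [e1]; exact qnu)
    · apply zn
      rw [e1, nnm h]
      have : u * (u * v) = v := by rw [← mul_assoc, h.exp2, one_mul]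
      rw [this]
      exact hnv
  · -- `d = u2`
    rw [e] at hvd
    rcases T.ve v (qc h hvd) with e1 | e1 | e1 | e1
    · exact hv1 e1
    · -- `v = -u2`
      have e2 : u * v = u3 := by rw [e1, hu3]; ac_rfl
      rw [e2] at h3
      rcases T.vg z (qc h h3) with e3 | e3 | e3 | e3
      · exact z1 e3
      · exact zneg u3 T.ag e3
      · exact zn (by rw [e3]; exact qu)
      · exact zu (by rw [e3]; exact T.ae)
    · exact hvu e1
    · -- `v = u3`
      have e2 : u * v = S.neg * u2 := by
        rw [e1, hu3]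
        calc u * (S.neg * u * u2) = S.neg * u2 * (u * u) := by ac_rfl
          _ = _ := by rw [h.exp2, mul_one]
      rw [e2] at h3
      rcases hw2 z (qc h h3) with e3 | e3 | e3 | e3
      · exact z1 e3
      · exact zu (by rw [e3]; exact T.ae)
      · refine mb2 (y * z) h4 ?_
        rw [← e3, mul_comm z]
        exact hyz
      · refine mb2 (y * z * u2) (p_mul h h4 T.ae) ?_
        calc y = y * z * z := hyz
          _ = y * z * (u2 * w2) := by rw [← e3]
          _ = _ := by ac_rfl
  · -- `d = u3`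
    rw [e] at hvd
    rcases T.vg v (qc h hvd) with e1 | e1 | e1 | e1
    · exact hv1 e1
    · -- `v = -u3`
      have e2 : u * v = u2 := by
        rw [e1, hu3]
        calc u * (S.neg * (S.neg * u * u2)) = u2 * (u * u) * (S.neg * S.neg) := by ac_rfl
          _ = _ := by rw [h.exp2, h.exp2, mul_one, mul_one]
      rw [e2] at h3
      rcases T.ve z (qc h h3) with e3 | e3 | e3 | e3
      · exact z1 e3
      · exact zneg u2 T.ae e3
      · exact zn (by rw [e3]; exact qu)
      · exact zu (by rw [e3]; exact T.ag)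
    · exact hvu e1
    · -- `v = u2`
      have e2 : u * v = S.neg * u3 := by
        rw [e1, hu3]
        calc u * u2 = u * u2 * (S.neg * S.neg) := by rw [h.exp2, mul_one]
          _ = S.neg * (S.neg * u * u2) := by ac_rfl
      rw [e2] at h3
      rcases hw3 z (qc h h3) with e3 | e3 | e3 | e3
      · exact z1 e3
      · exact zu (by rw [e3]; exact T.ag)
      · refine mb3 (y * z) h4 ?_
        rw [← e3, mul_comm z]
        exact hyz
      · refine mb3 (y * z * u3) (p_mul h h4 T.ag) ?_
        calc y = y * z * z := hyz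
          _ = y * z * (u3 * w3) := by rw [← e3]
          _ = _ := by ac_rfl

end fin

include h in
/-- value groups with at most four elements and more than sixteen elements: there are birigid
elements -/
theorem exists_bi4 [Finite S.G] (hc : 17 ≤ Nat.card S.G)
    (hs : ∀ a : S.G, a ≠ 1 → vs S a ≤ 4) : ∃ a : S.G, Bi S a := by
  classical
  have hf : Fintype S.G := Fintype.ofFinite _
  obtain ⟨n, hn⟩ := card_pow h
  have h32 : 32 ≤ Nat.card S.G := by
    rw [hn] at hc ⊢
    have h1 : 4 < n := by
      by_contra hcon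
      push Not at hcon
      have : 2 ^ n ≤ 2 ^ 4 := Nat.pow_le_pow_right (by norm_num) hcon
      omega
    calc 32 = 2 ^ 5 := by norm_num
      _ ≤ 2 ^ n := Nat.pow_le_pow_right (by norm_num) h1
  rw [Nat.card_eq_fintype_card] at h32
  by_cases h1 : S.neg = 1
  · exact exists_bi_one h hs h1 (by omega)
  · exact exists_bi_ne h hs h1 (by omega)

end Pool.Agent.R675.ETC4
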