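import Mathlib
import Pool.Agent.R675.ETC4.Main4
import Pool.Agent.R675.ETC4.Elem9
import Pool.Agent.Y920.ETC.Iter
import Pool.Agent.Results.MP_d26ff6_al.ValueGroupCriterion

set_option autoImplicit false

/-! Quaternionic structures whose value groups have at most four elements are of elementary type. -/

namespace Pool.Agent.R675.ETC4

open Pool.Agent.H315R3.ETC Pool.Agent.Y920.ETC Pool.Agent.TH673.VG

/-- structures with at most sixteen elements are of elementary type -/
theorem elem_sixteen (S : QData) (h : IsQuat S) [Finite S.G] (hc : Nat.card S.G ≤ 16) : Elem S := by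
  refine ((Pool.Agent.Results.MP_d26ff6_al.ValueGroupCriterion.result S h inferInstance).2.2.1).2 ?_
  intro H _ h4 h8
  exfalso
  have h1 := H.card_mul_index
  have h2 : 4 * 8 ≤ Nat.card H * H.index := Nat.mul_le_mul h4 h8
  rw [h1] at h2
  omega

/-- value groups with at most four elements and more than eight elements: there are birigid
elements -/
theorem exists_bi9 {S : QData} (h : IsQuat S) [Finite S.G] (hc : 9 ≤ Nat.card S.G)
    (hs : ∀ a : S.G, a ≠ 1 → vs S a ≤ 4) : ∃ a : S.G, Bi S a := by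
  by_cases h17 : 17 ≤ Nat.card S.G
  · exact exists_bi4 h h17 hs
  · exact bi_of_elem h (elem_sixteen S h (by omega)) hc hs

/-- iterated extensions of small structures -/
theorem iter4 : ∀ n : ℕ, ∀ S : QData, IsQuat S → Finite S.G →
    Nat.card S.G ≤ n → (∀ a : S.G, a ≠ 1 → vs S a ≤ 4) →
    ∃ (T : QData) (k : ℕ), IsQuat T ∧ Finite T.G ∧ Nat.card T.G ≤ 8 ∧
      2 ^ k * Nat.card T.G = Nat.card S.G ∧ (∀ a : T.G, a ≠ 1 → vs T a ≤ 4) ∧
      Iso (ext^[k] T) S := by
  intro n
  induction n with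
  | zero =>
    intro S h hf hc
    have : 0 < Nat.card S.G := Nat.card_pos
    omega
  | succ n ih =>
    intro S h hf hc hN
    by_cases hs : Nat.card S.G ≤ 8
    · exact ⟨S, 0, h, hf, hs, by simp, hN, iso_refl S⟩
    push Not at hs
    obtain ⟨b, hb⟩ := exists_bi9 h (by omega) hN
    obtain ⟨T, hT, hTf, hTc, hTi, hTN⟩ := bi_ext h hb
    have hTpos : 0 < Nat.card T.G := Nat.card_pos
    obtain ⟨R, k, hR, hRf, hRc, hRk, hRN, hRi⟩ := ih T hT hTf (by omega) (hTN 4 hN)
    refine ⟨R, k + 1, hR, hRf, hRc, ?_, hRN, ?_⟩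
    · rw [pow_succ, mul_comm (2 ^ k) 2, mul_assoc, hRk, hTc]
    · rw [Function.iterate_succ_apply']
      exact iso_trans (iso_ext hRi) hTi

lemma elem_iter4 {T : QData} (h : Elem T) : ∀ k : ℕ, Elem (ext^[k] T) := by
  intro k
  induction k with
  | zero => exact h
  | succ k ih =>
    rw [Function.iterate_succ_apply']
    exact Elem.ext _ ih

/-- structures whose value groups have at most four elements are of elementary type -/
theorem elem_four {S : QData} (h : IsQuat S) (hf : Finite S.G)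
    (hs : ∀ a : S.G, a ≠ 1 → vs S a ≤ 4) : Elem S := by
  obtain ⟨T, k, hT, hTf, hTc, -, -, hi⟩ := iter4 _ S h hf le_rfl hs
  exact Elem.iso _ _ (elem_iter4 (elem_sixteen T hT (by omega)) k) hi

/-- the basic part has at most eight elements -/
theorem card_basic4 {S : QData} (h : IsQuat S) [Finite S.G] (B : Subgroup S.G)
    (hB : ∀ a : S.G, a ∈ B ↔ ¬ Bi S a)
    (hN : ∀ a : S.G, a ≠ 1 → vs S a ≤ 4) : Nat.card B ≤ 8 := by
  have hneg : S.neg ∈ B := (hB _).2 fun hb => hb.2.1 rfl
  have hK : ∀ a : S.G, a ∉ B → Bi S a := fun a ha => by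
    by_contra hc
    exact ha ((hB a).2 hc)
  obtain ⟨hq, hin⟩ := isQuat_restrN h B hneg hK
  by_contra hcN
  push Not at hcN
  haveI : Finite (restrN S B hneg).G := inferInstanceAs (Finite B)
  obtain ⟨b, hb⟩ := exists_bi9 (S := restrN S B hneg) hq (by
      show 9 ≤ Nat.card B
      omega) (by
    intro (a : B) ha
    have h5 := vs_restrN h B hneg hK a ha
    have h6 : (a : S.G) ≠ 1 := fun e => ha (Subtype.ext e)
    calc vs (restrN S B hneg) a = vs S a.1 := by rw [h5]
      _ ≤ 4 := hN _ h6)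
  -- `b` is birigid in `S`
  obtain ⟨b1, b2, b3, b4⟩ := hb
  have hbB : (b : B).1 ∈ B := (b : B).2
  refine ((hB _).1 hbB) ⟨fun e => b1 (Subtype.ext e), fun e => b2 (Subtype.ext e), ?_, ?_⟩
  · intro e he
    have heB : e ∈ B := hin _ _ hbB (fun e => b1 (Subtype.ext e)) he
    rcases b3 ⟨e, heB⟩ he with h5 | h5
    · exact Or.inl (congrArg Subtype.val h5)
    · exact Or.inr (congrArg Subtype.val h5)
  · intro e he
    have hnb : S.neg * (b : B).1 ∈ B := B.mul_mem hneg hbB
    have heB : e ∈ B := hin _ _ hnb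
      (fun e => b2 (Subtype.ext (eq_of_mul h _ _ e).symm)) he
    rcases b4 ⟨e, heB⟩ he with h5 | h5
    · exact Or.inl (congrArg Subtype.val h5)
    · exact Or.inr (congrArg Subtype.val h5)

end Pool.Agent.R675.ETC4
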