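import Mathlib
import Pool.Agent.R675.ETC4.Fin4
import Pool.Agent.Y920.ETC.FieldR

set_option autoImplicit false

/-! Fields whose norm groups have at most four classes. -/

namespace Pool.Agent.R675.ETC4

open scoped Quaternion
open Pool.Agent.H315R3.ETC Pool.Agent.TH188.ET Pool.Agent.Y920.ETC

theorem reduce4 (hres : S_RES) {F : Type} [Field F] (h2 : (2 : F) ≠ 0)
    (hfin : (sqG F).index ≠ 0)
    (hsmall : ∀ a : Fˣ, a ∉ sqG F → (sqG F).relIndex (nG a) ≤ 4)
    (hlarge : 16 < (sqG F).index) :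
    ∃ O : ValuationSubring F, Red F O 4 ∧
      (sqG (IsLocalRing.ResidueField O)).index ≤ 16 ∧
      ∃ (k : ℕ) (T : QData), 1 ≤ k ∧ 2 ^ k * (sqG (IsLocalRing.ResidueField O)).index =
        (sqG F).index ∧ IsStructureOf (IsLocalRing.ResidueField O) T ∧
        IsStructureOf F (ext^[k] T) := by
  obtain ⟨S, hS, hSf, hSq⟩ := exists_structure h2 (finSq_of_index hfin)
  have hS' := hS
  obtain ⟨φ, hs, hk, hn, h0, hq⟩ := hS
  obtain ⟨B, hB⟩ := Pool.Agent.Y67.ET.t_BASIC S hSq
  have hcard : Nat.card S.G = (sqG F).index := card_eq hs hk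
  have hvs : ∀ g : S.G, g ≠ 1 → vs S g ≤ 4 := by
    intro g hg
    obtain ⟨a, rfl⟩ := hs g
    rw [vs_eq hs hk h0 hq h2]
    refine hsmall a fun ha => hg ?_
    rw [hk]
    exact mem_sqG.1 ha
  have hBc := card_basic4 hSq B hB hvs
  obtain ⟨O, hO, hOc, hc⟩ := exists_val hs hk hn h0 hq h2 B hB (by omega)
  obtain ⟨h2k, hstr, hbi⟩ := hres F O hO S φ hs hk hn h0 hq
  have hneg : S.neg ∈ O.unitGroup.map φ := by
    by_contra hc'
    exact (hbi _ hc').2.1 rfl
  have hstr' := hstr hneg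
  have hfK : Finite (restrN S (O.unitGroup.map φ) hneg).G :=
    inferInstanceAs (Finite (O.unitGroup.map φ))
  obtain ⟨k, hk1, hk2⟩ := chain _ S hSq hSf le_rfl (O.unitGroup.map φ) hneg hbi
  have hqK := (isQuat_restrN hSq (O.unitGroup.map φ) hneg hbi).1
  obtain ⟨ψ, hs', hk', hn', h0', hq'⟩ := hstr'
  have hcκ : Nat.card (O.unitGroup.map φ) = (sqG (IsLocalRing.ResidueField O)).index :=
    card_eq hs' hk'
  have hpos : 0 < Nat.card (O.unitGroup.map φ) := Nat.card_pos
  refine ⟨O, ⟨hO, h2k, by omega, ?_⟩, by omega, k, restrN S (O.unitGroup.map φ) hneg, ?_, ?_,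
    hstr hneg, ?_⟩
  · intro a ha
    rw [← vs_eq hs' hk' h0' hq' h2k, vs_restrN hSq (O.unitGroup.map φ) hneg hbi]
    · refine hvs _ fun e => ha ?_
      rw [mem_sqG, ← hk']
      exact Subtype.ext e
    · intro e
      apply ha
      rw [mem_sqG, ← hk']
      exact e
  · by_contra hk0
    have hk0' : k = 0 := by omega
    rw [hk0', pow_zero, one_mul] at hk1
    omega
  · rw [← hcκ, hk1, hcard]
  · refine structure_iso hS' (iso_symm hk2) ?_
    have h1q : (restrN S (O.unitGroup.map φ) hneg).q 1 1 =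
        (restrN S (O.unitGroup.map φ) hneg).zero := h0
    have : ∀ (k : ℕ) (T : QData), T.q 1 1 = T.zero → (ext^[k] T).q 1 1 = (ext^[k] T).zero := by
      intro k T hT
      induction k with
      | zero => exact hT
      | succ k ih =>
        rw [Function.iterate_succ_apply']
        show (((ext^[k] T).q 1 1, pw (pw (ext^[k] T).neg 1) 1 * pw 1 1 * pw 1 1) :
          (ext^[k] T).Q × (ext^[k] T).G) = ((ext^[k] T).zero, 1)
        rw [ih]
        simp [pw]
    exact this k _ h1q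

/-- the structure of a field whose norm groups have at most four classes -/
theorem structure_four {F : Type} [Field F] (h2 : (2 : F) ≠ 0) (hfin : (sqG F).index ≠ 0)
    (hsmall : ∀ a : Fˣ, a ∉ sqG F → (sqG F).relIndex (nG a) ≤ 4) :
    ∃ S : QData, IsStructureOf F S ∧ Finite S.G ∧ IsQuat S ∧ ∀ g : S.G, g ≠ 1 → vs S g ≤ 4 := by
  obtain ⟨S, hS, hSf, hSq⟩ := exists_structure h2 (finSq_of_index hfin)
  have hS' := hS
  obtain ⟨φ, hs, hk, hn, h0, hq⟩ := hS
  refine ⟨S, hS', hSf, hSq, ?_⟩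
  intro g hg
  obtain ⟨a, rfl⟩ := hs g
  rw [vs_eq hs hk h0 hq h2]
  refine hsmall a fun ha => hg ?_
  rw [hk]
  exact mem_sqG.1 ha

end Pool.Agent.R675.ETC4
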